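import Pool.Agent.MWA.StmtsQ

/-!
# Row RQ3 of block MWA: the condition `JPn` for the system b3 (period `n`)
-/

namespace Pool.Agent.MWA.H19

open Pool.Agent.Helper14_MV Pool.Agent.Helper2_MV Pool.Agent.MVO Pool.Agent.MWL Pool.Agent.MWS
open Pool.Agent.MWA

theorem rq3 (h1 : HapStmt) (h2 : UseStmt) (h3 : BtfStmt) (h4 : BtpStmt) (h5 : EqpStmt)
    (h6 : RdqStmt) : Rq3Stmt := by
  intro n β hβ hS θ hle hnc k a b i j hda hdb hLa hLb hji habs hnabs
  obtain ⟨hA, hP, hJ, hQ⟩ := hS
  have hn : 1 ≤ n := hβ.pos
  have hmod : ∀ x : ℕ, x + 4 * n ≡ x [MOD n] := by
    intro x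
    show (x + 4 * n) % n = x % n
    exact Nat.add_mul_mod_self_right x 4 n
  rcases h6 n β hβ hA hP hJ θ hle k a b i j hda hdb hLa hLb hji habs with h | ⟨hji', ⟨s, hsi, hs⟩, p, hp⟩
  · exact Or.inl h
  · obtain ⟨hpi, hik, hb⟩ := hp
    have hai : 1 ≤ a i := Nat.one_le_iff_ne_zero.mpr hLa.2.1
    by_cases hcase : (j ≤ p ∧ p ≤ s) ∨ (s ≤ p ∧ p ≤ j)
    · left
      have hθ : BsP n θ := BsP.mono hβ hle
      have hL : L1 θ k a (fun r => a r + if r = j ∨ r = s then 4 * n else 0) := by
        apply (h1 n θ hn hθ.ap).2
        intro r hr
        by_cases hr1 : r = j
        · right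
          refine ⟨?_, ?_, ?_⟩
          · show 2 ≤ a r + if r = j ∨ r = s then 4 * n else 0
            rw [if_pos (Or.inl hr1)]
            omega
          · show a r + (if r = j ∨ r = s then 4 * n else 0) ≡ a r [MOD n]
            rw [if_pos (Or.inl hr1)]
            exact hmod _
          · rw [hr1]
            exact habs
        · by_cases hr2 : r = s
          · right
            refine ⟨?_, ?_, ?_⟩
            · show 2 ≤ a r + if r = j ∨ r = s then 4 * n else 0
              rw [if_pos (Or.inr hr2)]
              omega
            · show a r + (if r = j ∨ r = s then 4 * n else 0) ≡ a r [MOD n]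
              rw [if_pos (Or.inr hr2)]
              exact hmod _
            · rw [hr2]
              exact AbN.mono hle hs
          · left
            show a r + (if r = j ∨ r = s then 4 * n else 0) = a r
            rw [if_neg (by rintro (h | h) <;> contradiction), Nat.add_zero]
      have hB : Bt β k b (fun r => a r + if r = j ∨ r = s then 4 * n else 0) i := by
        rcases hcase with ⟨hc1, hc2⟩ | ⟨hc1, hc2⟩
        · refine (h2 β hβ.cl).2.2 0 1 0 1 2 0 2 1 k j p s i b _ (by omega) (by omega) (by omega)
            (by omega) hQ hc1 hc2 (by omega) hik ?_ ?_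
          · intro t ht
            rw [hb t ht]
            by_cases e1 : t = p
            · have e2 : t ≠ i := by omega
              simp [e1, e2, show p ≠ i by omega]
            · by_cases e2 : t = i
              · simp [e2, show i ≠ p by omega]
              · simp [e1, e2]
          · intro t ht
            show _ ≤ a t + if t = j ∨ t = s then 4 * n else 0
            by_cases e1 : t = j
            · have e3 : t ≠ i := by omega
              rw [if_pos (Or.inl e1 : t = j ∨ t = s), if_neg e3]
              split_ifs <;> omega
            · by_cases e2 : t = s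
              · have e3 : t ≠ i := by omega
                rw [if_pos (Or.inr e2 : t = j ∨ t = s), if_neg e3]
                split_ifs <;> omega
              · by_cases e3 : t = i
                · rw [e3, if_neg (by omega), if_neg (by omega : ¬ i = s)]
                  split_ifs <;> omega
                · rw [if_neg e1, if_neg e2, if_neg e3]
                  split_ifs <;> omega
        · refine (h2 β hβ.cl).2.2 0 1 0 1 2 0 2 1 k s p j i b _ (by omega) (by omega) (by omega)
            (by omega) hQ hc1 hc2 (by omega) hik ?_ ?_
          · intro t ht
            rw [hb t ht]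
            by_cases e1 : t = p
            · have e2 : t ≠ i := by omega
              simp [e1, e2, show p ≠ i by omega]
            · by_cases e2 : t = i
              · simp [e2, show i ≠ p by omega]
              · simp [e1, e2]
          · intro t ht
            show _ ≤ a t + if t = j ∨ t = s then 4 * n else 0
            by_cases e1 : t = j
            · have e3 : t ≠ i := by omega
              rw [if_pos (Or.inl e1 : t = j ∨ t = s), if_neg e3]
              split_ifs <;> omega
            · by_cases e2 : t = s
              · have e3 : t ≠ i := by omega
                rw [if_pos (Or.inr e2 : t = j ∨ t = s), if_neg e3]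
                split_ifs <;> omega
              · by_cases e3 : t = i
                · rw [e3, if_neg (by omega), if_neg (by omega : ¬ i = j)]
                  split_ifs <;> omega
                · rw [if_neg e1, if_neg e2, if_neg e3]
                  split_ifs <;> omega
      have hB' := Bt.mono hle ((h4 β hβ.cl hβ.r0).2.1 k _ _ i hB)
      exact (h3 θ k a _ b b hL (RR.refl _)).2 i hB'
    · right
      intro θ' hle' hBt
      refine h5 n β hβ k a b i j s hda hdb hLa hLb hji' (le_of_lt hsi) hs ?_ θ' hle' hBt
      intro r hr hrs
      have hri : r < i := by
        rcases hr with ⟨_, h⟩ | ⟨_, h⟩ <;> omega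
      rw [hb r (by omega), if_neg]
      rintro (h | h)
      · apply hcase
        rcases hr with ⟨g1, g2⟩ | ⟨g1, g2⟩
        · left
          exact ⟨by omega, by omega⟩
        · right
          exact ⟨by omega, by omega⟩
      · omega

end Pool.Agent.MWA.H19
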